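import Pool.Agent.helper36.PT.Spec

/-! # Project PT (MP_ad8ced_nt): row FAC, factorization of the main terms -/

set_option autoImplicit false

namespace Pool.Agent.PT

open Finset Pool.Agent.helper71.AA

/-- the subsets of a disjoint union -/
lemma FAC_powerset {A B : Finset ℕ} (h : Disjoint A B) (G : Finset ℕ → ℝ) :
    ∑ D ∈ (A ∪ B).powerset, G D = ∑ D ∈ A.powerset, ∑ E ∈ B.powerset, G (D ∪ E) := by
  rw [← Finset.sum_product']
  refine Finset.sum_nbij' (fun D => (D ∩ A, D ∩ B)) (fun P => P.1 ∪ P.2) ?_ ?_ ?_ ?_ ?_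
  · intro D _
    rw [mem_product, mem_powerset, mem_powerset]
    exact ⟨inter_subset_right, inter_subset_right⟩
  · intro P hP
    rw [mem_product, mem_powerset, mem_powerset] at hP
    rw [mem_powerset]
    exact union_subset_union hP.1 hP.2
  · intro D hD
    rw [mem_powerset] at hD
    rw [← inter_union_distrib_left, inter_eq_left.2 hD]
  · intro P hP
    rw [mem_product, mem_powerset, mem_powerset] at hP
    have h1 : P.2 ∩ A = ∅ := disjoint_iff_inter_eq_empty.1 (h.symm.mono_left hP.2)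
    have h2 : P.1 ∩ B = ∅ := disjoint_iff_inter_eq_empty.1 (h.mono_left hP.1)
    rw [union_inter_distrib_right, union_inter_distrib_right, h1, h2, union_empty, empty_union,
      inter_eq_left.2 hP.1, inter_eq_left.2 hP.2]
  · intro D hD
    rw [mem_powerset] at hD
    rw [← inter_union_distrib_left, inter_eq_left.2 hD]

lemma FAC_pr {D E : Finset ℕ} (h : Disjoint D E) : pr (D ∪ E) = pr D * pr E := by
  unfold pr
  exact prod_union h

lemma FAC_int {A B D E : Finset ℕ} (h : Disjoint A B) (hD : D ⊆ A) (hE : E ⊆ B) :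
    (D ∪ E) ∩ A = D ∧ (D ∪ E) ∩ B = E := by
  have h1 : E ∩ A = ∅ := disjoint_iff_inter_eq_empty.1 (h.symm.mono_left hE)
  have h2 : D ∩ B = ∅ := disjoint_iff_inter_eq_empty.1 (h.mono_left hD)
  constructor
  · rw [union_inter_distrib_right, h1, union_empty, inter_eq_left.2 hD]
  · rw [union_inter_distrib_right, h2, empty_union, inter_eq_left.2 hE]

lemma FAC_rho {Q₁ Q₂ D E D' E' : Finset ℕ} (h : Disjoint Q₁ Q₂) (p q : ℕ) (hD : D ⊆ Q₁)
    (hE : E ⊆ Q₂) (hD' : D' ⊆ Q₁) (hE' : E' ⊆ Q₂) :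
    rho (Nn (Q₁ ∪ Q₂) p q) (D ∪ E) (D' ∪ E') = rho (Nn Q₁ p q) D D' * rho (Nn Q₂ p q) E E' := by
  have hpr : pr (D ∪ E ∪ (D' ∪ E')) = pr (D ∪ D') * pr (E ∪ E') := by
    have h1 : D ∪ E ∪ (D' ∪ E') = (D ∪ D') ∪ (E ∪ E') := by
      ext l
      simp only [mem_union]
      tauto
    rw [h1]
    exact FAC_pr (h.mono (union_subset hD hD') (union_subset hE hE'))
  have hc : (D ∪ E) ∩ (D' ∪ E') ⊆ Nn (Q₁ ∪ Q₂) p q ↔
      D ∩ D' ⊆ Nn Q₁ p q ∧ E ∩ E' ⊆ Nn Q₂ p q := by
    constructor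
    · intro hs
      constructor
      · intro l hl
        rw [mem_inter] at hl
        have h1 := hs (mem_inter.2 ⟨mem_union_left _ hl.1, mem_union_left _ hl.2⟩)
        unfold Nn at h1 ⊢
        rw [mem_filter] at h1 ⊢
        exact ⟨hD hl.1, h1.2⟩
      · intro l hl
        rw [mem_inter] at hl
        have h1 := hs (mem_inter.2 ⟨mem_union_right _ hl.1, mem_union_right _ hl.2⟩)
        unfold Nn at h1 ⊢
        rw [mem_filter] at h1 ⊢
        exact ⟨hE hl.1, h1.2⟩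
    · rintro ⟨hs1, hs2⟩ l hl
      rw [mem_inter, mem_union, mem_union] at hl
      obtain ⟨h1, h2⟩ := hl
      have hd : ∀ x, x ∈ Q₁ → x ∈ Q₂ → False := fun x hx hx' => (disjoint_left.1 h) hx hx'
      unfold Nn
      rw [mem_filter, mem_union]
      rcases h1 with h1 | h1
      · rcases h2 with h2 | h2
        · have h3 := hs1 (mem_inter.2 ⟨h1, h2⟩)
          unfold Nn at h3
          rw [mem_filter] at h3
          exact ⟨Or.inl h3.1, h3.2⟩
        · exact (hd l (hD h1) (hE' h2)).elim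
      · rcases h2 with h2 | h2
        · exact (hd l (hD' h2) (hE h1)).elim
        · have h3 := hs2 (mem_inter.2 ⟨h1, h2⟩)
          unfold Nn at h3
          rw [mem_filter] at h3
          exact ⟨Or.inr h3.1, h3.2⟩
  unfold rho
  by_cases h1 : D ∩ D' ⊆ Nn Q₁ p q
  · by_cases h2 : E ∩ E' ⊆ Nn Q₂ p q
    · rw [if_pos (hc.2 ⟨h1, h2⟩), if_pos h1, if_pos h2, hpr, one_div_mul_one_div]
    · rw [if_neg (fun h3 => h2 (hc.1 h3).2), if_neg h2, mul_zero]
  · rw [if_neg (fun h3 => h1 (hc.1 h3).1), if_neg h1, zero_mul]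

theorem FAC : FAC_stmt := by
  intro Q₁ Q₂ h _ p q θ θ' ξ ξ'
  have hsub : ∀ r : ℕ, (Q₁ ∪ Q₂).erase r = Q₁.erase r ∪ Q₂.erase r := fun r =>
    erase_union_distrib _ _ _
  have hdis : ∀ r : ℕ, Disjoint (Q₁.erase r) (Q₂.erase r) := fun r =>
    h.mono (erase_subset _ _) (erase_subset _ _)
  constructor
  · rw [hsub, FAC_powerset (hdis p), sum_mul_sum]
    refine sum_congr rfl fun D hD => sum_congr rfl fun E hE => ?_
    rw [mem_powerset] at hD hE
    have hD1 := hD.trans (erase_subset _ _)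
    have hE1 := hE.trans (erase_subset _ _)
    obtain ⟨e1, e2⟩ := FAC_int h hD1 hE1
    rw [e1, e2, FAC_pr (h.mono hD1 hE1), mul_div_mul_comm]
  · rw [hsub, hsub, FAC_powerset (hdis p)]
    have key : ∀ D ∈ (Q₁.erase p).powerset, ∀ E ∈ (Q₂.erase p).powerset,
        ∑ F ∈ (Q₁.erase q ∪ Q₂.erase q).powerset,
          (θ ((D ∪ E) ∩ Q₁) * ξ ((D ∪ E) ∩ Q₂)) * (θ' (F ∩ Q₁) * ξ' (F ∩ Q₂)) *
            rho (Nn (Q₁ ∪ Q₂) p q) (D ∪ E) F =
        (∑ D' ∈ (Q₁.erase q).powerset, θ D * θ' D' * rho (Nn Q₁ p q) D D') *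
          ∑ E' ∈ (Q₂.erase q).powerset, ξ E * ξ' E' * rho (Nn Q₂ p q) E E' := by
      intro D hD E hE
      rw [mem_powerset] at hD hE
      have hD1 := hD.trans (erase_subset _ _)
      have hE1 := hE.trans (erase_subset _ _)
      obtain ⟨e1, e2⟩ := FAC_int h hD1 hE1
      rw [FAC_powerset (hdis q), sum_mul_sum]
      refine sum_congr rfl fun D' hD' => sum_congr rfl fun E' hE' => ?_
      rw [mem_powerset] at hD' hE'
      have hD2 := hD'.trans (erase_subset _ _)
      have hE2 := hE'.trans (erase_subset _ _)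
      obtain ⟨e3, e4⟩ := FAC_int h hD2 hE2
      rw [e1, e2, e3, e4, FAC_rho h p q hD1 hE1 hD2 hE2]
      ring
    rw [sum_congr rfl fun D hD => sum_congr rfl fun E hE => key D hD E hE, sum_mul_sum]

end Pool.Agent.PT
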