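import Pool.Agent.helper59.PT.Spec2

set_option linter.all false
set_option autoImplicit false

/-!
# pt:LG2, the leg inequality for permanents in a direction
-/

namespace Pool.Agent.helper37.PT

open MvPolynomial
open Pool.Agent.helper59.PT
open scoped BigOperators ComplexConjugate ComplexOrder

/-- a matrix with a zero row has permanent zero -/
theorem per_zero_row {n : Type*} [Fintype n] [DecidableEq n] (M : Matrix n n ℂ) (x : n)
    (h : ∀ y, M x y = 0) : M.permanent = 0 := by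
  unfold Matrix.permanent
  refine Finset.sum_eq_zero fun σ _ => ?_
  refine Finset.prod_eq_zero (Finset.mem_univ (σ.symm x)) ?_
  rw [Equiv.apply_symm_apply]
  exact h _

section

variable {ι : Type} [Fintype ι] [DecidableEq ι] {m : ℕ}

/-- coefficients of a ket -/
def al (l : Fin m → ι → ℂ) (x : Fin 3 × Fin m) (w : Sl × ι) : ℂ :=
  Sum.elim (fun p' => if p' = x.1 then l x.2 w.2 else 0) (fun _ => 0) w.1

/-- coefficients of a bra -/
def be (l : Fin m → ι → ℂ) (y : Fin 3 × Fin m) (w : Sl × ι) : ℂ :=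
  Sum.elim (fun _ => 0) (fun q' => if q' = y.1 then conj (l y.2 w.2) else 0) w.1

/-- the ket -/
noncomputable def ket (l : Fin m → ι → ℂ) (x : Fin 3 × Fin m) : MvPolynomial (Sl × ι) ℂ :=
  ∑ a, C (l x.2 a) * X (Sum.inl x.1, a)

/-- the bra -/
noncomputable def bra (l : Fin m → ι → ℂ) (y : Fin 3 × Fin m) : MvPolynomial (Sl × ι) ℂ :=
  ∑ a, C (conj (l y.2 a)) * X (Sum.inr y.1, a)

theorem sum_al {M : Type*} [AddCommMonoid M] (l : Fin m → ι → ℂ) (x : Fin 3 × Fin m)
    (f : Sl × ι → ℂ → M) (hf : ∀ v, f v 0 = 0) :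
    ∑ v, f v (al l x v) = ∑ a, f (Sum.inl x.1, a) (l x.2 a) := by
  rw [Fintype.sum_prod_type, Fintype.sum_sum_type]
  have h2 : ∑ q : Fin 3, ∑ a : ι, f (Sum.inr q, a) (al l x (Sum.inr q, a)) = 0 := by
    refine Finset.sum_eq_zero fun q _ => Finset.sum_eq_zero fun a _ => ?_
    exact hf _
  have h1 : ∑ p : Fin 3, ∑ a : ι, f (Sum.inl p, a) (al l x (Sum.inl p, a)) =
      ∑ a, f (Sum.inl x.1, a) (l x.2 a) := by
    rw [Finset.sum_eq_single x.1]
    · refine Finset.sum_congr rfl fun a _ => ?_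
      simp [al]
    · intro p _ hp
      refine Finset.sum_eq_zero fun a _ => ?_
      simp [al, hp, hf]
    · intro h
      exact absurd (Finset.mem_univ _) h
  exact (congrArg₂ (· + ·) h1 h2).trans (add_zero _)

theorem sum_be {M : Type*} [AddCommMonoid M] (l : Fin m → ι → ℂ) (y : Fin 3 × Fin m)
    (f : Sl × ι → ℂ → M) (hf : ∀ v, f v 0 = 0) :
    ∑ v, f v (be l y v) = ∑ a, f (Sum.inr y.1, a) (conj (l y.2 a)) := by
  rw [Fintype.sum_prod_type, Fintype.sum_sum_type]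
  have h2 : ∑ q : Fin 3, ∑ a : ι, f (Sum.inl q, a) (be l y (Sum.inl q, a)) = 0 := by
    refine Finset.sum_eq_zero fun q _ => Finset.sum_eq_zero fun a _ => ?_
    exact hf _
  have h1 : ∑ p : Fin 3, ∑ a : ι, f (Sum.inr p, a) (be l y (Sum.inr p, a)) =
      ∑ a, f (Sum.inr y.1, a) (conj (l y.2 a)) := by
    rw [Finset.sum_eq_single y.1]
    · refine Finset.sum_congr rfl fun a _ => ?_
      simp [be]
    · intro p _ hp
      refine Finset.sum_eq_zero fun a _ => ?_
      simp [be, hp, hf]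
    · intro h
      exact absurd (Finset.mem_univ _) h
  exact (congrArg₂ (· + ·) h2 h1).trans (zero_add _)

theorem ket_eq (l : Fin m → ι → ℂ) (x : Fin 3 × Fin m) :
    ∑ w, C (al l x w) * X w = ket l x :=
  sum_al l x (fun w z => C z * X w) (fun v => by simp)

theorem bra_eq (l : Fin m → ι → ℂ) (y : Fin 3 × Fin m) :
    ∑ w, C (be l y w) * X w = bra l y :=
  sum_be l y (fun w z => C z * X w) (fun v => by simp)

/-! ## The extended covariance -/

/-- the covariance with three new kets which contract with the bras by `v` -/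
def KX (c v : Fin 3 → ℝ) : (Sl × ι) ⊕ (Fin 3 × ι) → (Sl × ι) ⊕ (Fin 3 × ι) → ℂ
  | Sum.inl x, Sum.inl y => KC c x y
  | Sum.inl (Sum.inr q, b), Sum.inr (p, a) => if a = b then (v (q - p) : ℂ) else 0
  | Sum.inr (p, a), Sum.inl (Sum.inr q, b) => if a = b then (v (q - p) : ℂ) else 0
  | Sum.inl (Sum.inl _, _), Sum.inr _ => 0
  | Sum.inr _, Sum.inl (Sum.inl _, _) => 0
  | Sum.inr _, Sum.inr _ => 0

theorem KC_symm (c : Fin 3 → ℝ) (x y : Sl × ι) : KC c x y = KC c y x := by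
  obtain ⟨x1, a⟩ := x
  obtain ⟨y1, b⟩ := y
  rcases x1 with p | q <;> rcases y1 with p' | q' <;> simp [KC, eq_comm]

theorem KX_symm (c v : Fin 3 → ℝ) (x y : (Sl × ι) ⊕ (Fin 3 × ι)) : KX c v x y = KX c v y x := by
  rcases x with ⟨p | q, a⟩ | ⟨p, a⟩ <;> rcases y with ⟨p' | q', b⟩ | ⟨p', b⟩ <;>
    simp [KX, KC, eq_comm]

theorem pderiv_inr_rename {V W : Type} (w : W) (Q : MvPolynomial V ℂ) :
    pderiv (Sum.inr w) (rename (Sum.inl : V → V ⊕ W) Q) = 0 := by
  induction Q using MvPolynomial.induction_on with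
  | C a => simp
  | add p q hp hq => simp [hp, hq]
  | mul_X p n hp =>
    rw [map_mul, rename_X, Derivation.leibniz, hp, pderiv_X_of_ne]
    · simp
    · simp

/-- restriction of the functional to the old variables -/
noncomputable def L0 {V W : Type} (L' : MvPolynomial (V ⊕ W) ℂ →ₗ[ℂ] ℂ) :
    MvPolynomial V ℂ →ₗ[ℂ] ℂ :=
  L'.comp (rename (Sum.inl : V → V ⊕ W)).toLinearMap

theorem L0_apply {V W : Type} (L' : MvPolynomial (V ⊕ W) ℂ →ₗ[ℂ] ℂ) (Q : MvPolynomial V ℂ) :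
    L0 L' Q = L' (rename Sum.inl Q) := rfl

theorem L0_isG (c v : Fin 3 → ℝ) (L' : MvPolynomial ((Sl × ι) ⊕ (Fin 3 × ι)) ℂ →ₗ[ℂ] ℂ)
    (h : IsG (KX c v) L') : IsG (KC c) (L0 L') := by
  constructor
  · rw [L0_apply, map_one, h.one]
  · intro x Q
    rw [L0_apply, map_mul, rename_X, h.step, Fintype.sum_sum_type]
    have h2 : ∑ w : Fin 3 × ι, KX c v (Sum.inl x) (Sum.inr w) *
        L' (pderiv (Sum.inr w) (rename Sum.inl Q)) = 0 := by
      refine Finset.sum_eq_zero fun w _ => ?_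
      rw [pderiv_inr_rename, map_zero, mul_zero]
    rw [h2, add_zero]
    refine Finset.sum_congr rfl fun w _ => ?_
    rw [L0_apply, pderiv_rename Sum.inl_injective]
    rfl

/-- the step for a new ket -/
theorem step_new (c v : Fin 3 → ℝ) (L' : MvPolynomial ((Sl × ι) ⊕ (Fin 3 × ι)) ℂ →ₗ[ℂ] ℂ)
    (h : IsG (KX c v) L') (p : Fin 3) (u : ι → ℂ) (Q : MvPolynomial (Sl × ι) ℂ) :
    L' ((∑ a, C (u a) * X (Sum.inr (p, a))) * rename Sum.inl Q) =
      ∑ q : Fin 3, (v (q - p) : ℂ) * L0 L' (DD u q Q) := by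
  have h1 : ∀ a, L' (C (u a) * X (Sum.inr (p, a)) * rename Sum.inl Q) =
      ∑ q : Fin 3, (v (q - p) : ℂ) * (u a * L0 L' (pderiv (Sum.inr q, a) Q)) := by
    intro a
    have e1 : C (u a) * X (Sum.inr (p, a)) * rename Sum.inl Q =
        (u a) • (X (Sum.inr (p, a)) * rename (Sum.inl : Sl × ι → (Sl × ι) ⊕ (Fin 3 × ι)) Q) := by
      rw [smul_eq_C_mul, mul_assoc]
    rw [e1, map_smul, h.step, Fintype.sum_sum_type]
    have h2 : ∑ w : Fin 3 × ι, KX c v (Sum.inr (p, a)) (Sum.inr w) *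
        L' (pderiv (Sum.inr w) (rename Sum.inl Q)) = 0 := by
      refine Finset.sum_eq_zero fun w _ => ?_
      rw [pderiv_inr_rename, map_zero, mul_zero]
    rw [h2, add_zero, Fintype.sum_prod_type, Fintype.sum_sum_type]
    have h3 : ∑ p' : Fin 3, ∑ b : ι, KX c v (Sum.inr (p, a)) (Sum.inl (Sum.inl p', b)) *
        L' (pderiv (Sum.inl (Sum.inl p', b)) (rename Sum.inl Q)) = 0 := by
      refine Finset.sum_eq_zero fun p' _ => Finset.sum_eq_zero fun b _ => ?_
      simp [KX]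
    rw [h3, zero_add, smul_eq_mul, Finset.mul_sum]
    refine Finset.sum_congr rfl fun q _ => ?_
    rw [Finset.sum_eq_single a]
    · rw [L0_apply, ← pderiv_rename (Sum.inl_injective (β := Fin 3 × ι))]
      simp only [KX, if_true]
      ring
    · intro b _ hb
      simp [KX, Ne.symm hb]
    · intro hh
      exact absurd (Finset.mem_univ _) hh
  rw [Finset.sum_mul, map_sum, Finset.sum_congr rfl (fun a _ => h1 a), Finset.sum_comm]
  refine Finset.sum_congr rfl fun q _ => ?_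
  unfold DD
  rw [map_sum, ← Finset.mul_sum]
  congr 1
  refine Finset.sum_congr rfl fun a _ => ?_
  rw [← smul_eq_C_mul, map_smul, smul_eq_mul]

/-! ## The permanents as values of the functional -/

theorem al_al (c : Fin 3 → ℝ) (l : Fin m → ι → ℂ) (x x' : Fin 3 × Fin m) :
    ∑ v, ∑ w, al l x v * KC c v w * al l x' w = 0 := by
  refine Finset.sum_eq_zero fun v _ => Finset.sum_eq_zero fun w _ => ?_
  obtain ⟨v1, a⟩ := v
  obtain ⟨w1, b⟩ := w
  rcases v1 with p | q <;> rcases w1 with p' | q' <;> simp [KC, al]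

theorem al_be (c : Fin 3 → ℝ) (l : Fin m → ι → ℂ) (x y : Fin 3 × Fin m) :
    ∑ v, ∑ w, al l x v * KC c v w * be l y w =
      (circ c x.1 y.1 : ℂ) * ∑ a, l x.2 a * conj (l y.2 a) := by
  have h1 : ∀ v, ∑ w, al l x v * KC c v w * be l y w =
      ∑ b, al l x v * KC c v (Sum.inr y.1, b) * conj (l y.2 b) := fun v =>
    sum_be l y (fun w z => al l x v * KC c v w * z) (fun w => by simp)
  rw [Finset.sum_congr rfl fun v _ => h1 v]
  have h2 := sum_al l x (fun v z => ∑ b, z * KC c v (Sum.inr y.1, b) * conj (l y.2 b))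
    (fun w => by simp)
  rw [h2, Finset.mul_sum]
  refine Finset.sum_congr rfl fun a _ => ?_
  rw [Finset.sum_eq_single a]
  · simp only [KC, if_true]
    ring
  · intro b _ hb
    simp [KC, Ne.symm hb]
  · intro hh
    exact absurd (Finset.mem_univ _) hh

/-- the permanent of `circ c ⊗ B` -/
theorem per_KB (hWK : RowWK) (c : Fin 3 → ℝ) (L : MvPolynomial (Sl × ι) ℂ →ₗ[ℂ] ℂ)
    (hL : IsG (KC c) L) (B : Matrix (Fin m) (Fin m) ℂ) (l : Fin m → ι → ℂ)
    (hl : ∀ s t, B s t = ∑ a, l s a * conj (l t a)) :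
    (KB c B).permanent = L ((∏ x, ket l x) * ∏ y, bra l y) := by
  have h := hWK (Sl × ι) (KC c) L hL (Fin 3 × Fin m) (al l) (be l) (al_al c l)
  simp only [ket_eq, bra_eq] at h
  rw [h]
  congr 1
  ext x y
  rw [Matrix.of_apply, al_be, ← hl]
  rfl

/-- the coefficients of the kets with a new one at `x0` -/
def al' (l : Fin m → ι → ℂ) (x0 x : Fin 3 × Fin m) : (Sl × ι) ⊕ (Fin 3 × ι) → ℂ :=
  if x = x0 then Sum.elim (fun _ => 0) (fun w => if w.1 = x0.1 then l x0.2 w.2 else 0)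
  else Sum.elim (al l x) (fun _ => 0)

/-- the coefficients of the bras -/
def be' (l : Fin m → ι → ℂ) (y : Fin 3 × Fin m) : (Sl × ι) ⊕ (Fin 3 × ι) → ℂ :=
  Sum.elim (be l y) (fun _ => 0)

theorem al'_al' (c v : Fin 3 → ℝ) (l : Fin m → ι → ℂ) (x0 x x' : Fin 3 × Fin m) :
    ∑ w, ∑ w', al' l x0 x w * KX c v w w' * al' l x0 x' w' = 0 := by
  refine Finset.sum_eq_zero fun v _ => Finset.sum_eq_zero fun w _ => ?_
  rcases v with ⟨p | q, a⟩ | ⟨p, a⟩ <;> rcases w with ⟨p' | q', b⟩ | ⟨p', b⟩ <;>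
    simp only [KX, KC, al'] <;> split_ifs <;> simp [al]

theorem new_be (c v : Fin 3 → ℝ) (l : Fin m → ι → ℂ) (x0 y : Fin 3 × Fin m) :
    ∑ w, ∑ w', al' l x0 x0 w * KX c v w w' * be' l y w' =
      (v (y.1 - x0.1) : ℂ) * ∑ a, l x0.2 a * conj (l y.2 a) := by
  have h1 : ∀ w, ∑ w', al' l x0 x0 w * KX c v w w' * be' l y w' =
      ∑ b, al' l x0 x0 w * KX c v w (Sum.inl (Sum.inr y.1, b)) * conj (l y.2 b) := by
    intro w
    rw [Fintype.sum_sum_type]
    have h2 : ∑ a₂ : Fin 3 × ι, al' l x0 x0 w * KX c v w (Sum.inr a₂) * be' l y (Sum.inr a₂) = 0 :=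
      Finset.sum_eq_zero fun a _ => by simp [be']
    rw [h2, add_zero]
    exact sum_be l y (fun w' z => al' l x0 x0 w * KX c v w (Sum.inl w') * z) (fun w => by simp)
  rw [Finset.sum_congr rfl fun w _ => h1 w, Fintype.sum_sum_type]
  have h3 : ∑ a₁ : Sl × ι, ∑ b, al' l x0 x0 (Sum.inl a₁) *
      KX c v (Sum.inl a₁) (Sum.inl (Sum.inr y.1, b)) * conj (l y.2 b) = 0 :=
    Finset.sum_eq_zero fun a _ => Finset.sum_eq_zero fun b _ => by simp [al']
  rw [h3, zero_add, Fintype.sum_prod_type, Finset.sum_eq_single x0.1]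
  · rw [Finset.mul_sum]
    refine Finset.sum_congr rfl fun a _ => ?_
    rw [Finset.sum_eq_single a]
    · simp only [KX, al', if_true, Sum.elim_inr]
      ring
    · intro b _ hb
      simp [KX, Ne.symm hb]
    · intro hh
      exact absurd (Finset.mem_univ _) hh
  · intro p _ hp
    refine Finset.sum_eq_zero fun a _ => Finset.sum_eq_zero fun b _ => ?_
    simp [al', hp]
  · intro hh
    exact absurd (Finset.mem_univ _) hh

theorem old_be (c v : Fin 3 → ℝ) (l : Fin m → ι → ℂ) (x0 x y : Fin 3 × Fin m) (hx : x ≠ x0) :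
    ∑ w, ∑ w', al' l x0 x w * KX c v w w' * be' l y w' =
      (circ c x.1 y.1 : ℂ) * ∑ a, l x.2 a * conj (l y.2 a) := by
  rw [Fintype.sum_sum_type]
  have h1 : ∑ a₂ : Fin 3 × ι, ∑ w', al' l x0 x (Sum.inr a₂) * KX c v (Sum.inr a₂) w' *
      be' l y w' = 0 :=
    Finset.sum_eq_zero fun a _ => Finset.sum_eq_zero fun b _ => by simp [al', hx]
  rw [h1, add_zero, ← al_be]
  refine Finset.sum_congr rfl fun w _ => ?_
  rw [Fintype.sum_sum_type]
  have h2 : ∑ a₂ : Fin 3 × ι, al' l x0 x (Sum.inl w) * KX c v (Sum.inl w) (Sum.inr a₂) *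
      be' l y (Sum.inr a₂) = 0 :=
    Finset.sum_eq_zero fun a _ => by simp [be']
  rw [h2, add_zero]
  refine Finset.sum_congr rfl fun w' _ => ?_
  simp [al', hx, be', KX]

/-- the permanent with the row replaced -/
theorem per_row (hWK : RowWK) (c v : Fin 3 → ℝ)
    (L' : MvPolynomial ((Sl × ι) ⊕ (Fin 3 × ι)) ℂ →ₗ[ℂ] ℂ)
    (hL : IsG (KX c v) L') (B : Matrix (Fin m) (Fin m) ℂ) (l : Fin m → ι → ℂ)
    (hl : ∀ s t, B s t = ∑ a, l s a * conj (l t a)) (x0 : Fin 3 × Fin m) :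
    ((KB c B).updateRow x0 (fun y => (v (y.1 - x0.1) : ℂ) * B x0.2 y.2)).permanent =
      ∑ q : Fin 3, (v (q - x0.1) : ℂ) *
        L0 L' (DD (l x0.2) q ((∏ x, if x = x0 then 1 else ket l x) * ∏ y, bra l y)) := by
  have h := hWK ((Sl × ι) ⊕ (Fin 3 × ι)) (KX c v) L' hL (Fin 3 × Fin m) (al' l x0) (be' l)
    (al'_al' c v l x0)
  have hm : (Matrix.of fun s t => ∑ w, ∑ w', al' l x0 s w * KX c v w w' * be' l t w') =
      (KB c B).updateRow x0 (fun y => (v (y.1 - x0.1) : ℂ) * B x0.2 y.2) := by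
    ext x y
    rw [Matrix.of_apply]
    by_cases hx : x = x0
    · subst hx
      rw [Matrix.updateRow_self, new_be, ← hl]
    · rw [Matrix.updateRow_ne hx, old_be c v l x0 x y hx, ← hl]
      rfl
  rw [hm] at h
  rw [← h, ← step_new c v L' hL x0.1 (l x0.2)]
  congr 1
  have hb : ∀ y, ∑ w, C (be' l y w) * X w =
      rename (Sum.inl : Sl × ι → (Sl × ι) ⊕ (Fin 3 × ι)) (bra l y) := by
    intro y
    rw [Fintype.sum_sum_type, ← bra_eq, map_sum]
    have h2 : ∑ a₂ : Fin 3 × ι, C (be' l y (Sum.inr a₂)) *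
        X (Sum.inr a₂ : (Sl × ι) ⊕ (Fin 3 × ι)) = 0 :=
      Finset.sum_eq_zero fun a _ => by simp [be']
    rw [h2, add_zero]
    refine Finset.sum_congr rfl fun w _ => ?_
    simp [be']
  have hk : ∀ x, x ≠ x0 → ∑ w, C (al' l x0 x w) * X w =
      rename (Sum.inl : Sl × ι → (Sl × ι) ⊕ (Fin 3 × ι)) (ket l x) := by
    intro x hx
    rw [Fintype.sum_sum_type, ← ket_eq, map_sum]
    have h2 : ∑ a₂ : Fin 3 × ι, C (al' l x0 x (Sum.inr a₂)) *
        X (Sum.inr a₂ : (Sl × ι) ⊕ (Fin 3 × ι)) = 0 :=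
      Finset.sum_eq_zero fun a _ => by simp [al', hx]
    rw [h2, add_zero]
    refine Finset.sum_congr rfl fun w _ => ?_
    simp [al', hx]
  have hk0 : ∑ w, C (al' l x0 x0 w) * X w =
      ∑ a, C (l x0.2 a) * X (Sum.inr (x0.1, a) : (Sl × ι) ⊕ (Fin 3 × ι)) := by
    rw [Fintype.sum_sum_type]
    have h2 : ∑ a₁ : Sl × ι, C (al' l x0 x0 (Sum.inl a₁)) *
        X (Sum.inl a₁ : (Sl × ι) ⊕ (Fin 3 × ι)) = 0 :=
      Finset.sum_eq_zero fun a _ => by simp [al']
    rw [h2, zero_add, Fintype.sum_prod_type, Finset.sum_eq_single x0.1]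
    · refine Finset.sum_congr rfl fun a _ => ?_
      simp [al']
    · intro p _ hp
      refine Finset.sum_eq_zero fun a _ => ?_
      simp [al', hp]
    · intro hh
      exact absurd (Finset.mem_univ _) hh
  rw [map_mul, map_prod, map_prod, ← Finset.mul_prod_erase Finset.univ _ (Finset.mem_univ x0),
    ← Finset.mul_prod_erase Finset.univ
      (fun x => rename (Sum.inl : Sl × ι → (Sl × ι) ⊕ (Fin 3 × ι)) (if x = x0 then 1 else ket l x))
      (Finset.mem_univ x0), hk0]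
  simp only [if_true, map_one, one_mul, hb]
  rw [mul_assoc]
  congr 2
  refine Finset.prod_congr rfl fun x hx => ?_
  rw [hk x (Finset.ne_of_mem_erase hx), if_neg (Finset.ne_of_mem_erase hx)]

/-! ## The legs -/

theorem ket_scale (l : Fin m → ι → ℂ) (e : ι → ℂ) (b : ℂ) (s : Fin m)
    (hle : ∀ a, l s a = b * e a) (p : Fin 3) : ket l (p, s) = C b * xi e p := by
  unfold ket xi
  rw [Finset.mul_sum]
  refine Finset.sum_congr rfl fun a _ => ?_
  rw [hle, C_mul, mul_assoc]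

theorem bra_scale (l : Fin m → ι → ℂ) (e : ι → ℂ) (b : ℝ) (s : Fin m)
    (hle : ∀ a, l s a = (b : ℂ) * e a) (q : Fin 3) : bra l (q, s) = C (b : ℂ) * eta e q := by
  unfold bra eta
  rw [Finset.mul_sum]
  refine Finset.sum_congr rfl fun a _ => ?_
  rw [hle, map_mul, Complex.conj_ofReal, C_mul, mul_assoc]

theorem DD_scale (u e : ι → ℂ) (b : ℂ) (hle : ∀ a, u a = b * e a) (q : Fin 3)
    (Q : MvPolynomial (Sl × ι) ℂ) : DD u q Q = C b * DD e q Q := by
  unfold DD
  rw [Finset.mul_sum]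
  refine Finset.sum_congr rfl fun a _ => ?_
  rw [hle, C_mul, mul_assoc]

theorem DD_C (e : ι → ℂ) (b : ℂ) (q : Fin 3) (Q : MvPolynomial (Sl × ι) ℂ) :
    DD e q (C b * Q) = C b * DD e q Q := by
  unfold DD
  rw [Finset.mul_sum]
  refine Finset.sum_congr rfl fun a _ => ?_
  rw [Derivation.leibniz, pderiv_C, smul_zero, add_zero, smul_eq_mul]
  ring

/-- the product of the other rows -/
noncomputable def FF (l : Fin m → ι → ℂ) (s : Fin m) : MvPolynomial ι ℂ :=
  ∏ t ∈ Finset.univ.erase s, ∑ a, C (l t a) * X a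

theorem GM_eq (l : Fin m → ι → ℂ) (e : ι → ℂ) (s : Fin m) :
    GM e (FF l s) 0 0 = (∏ p : Fin 3, ∏ t ∈ Finset.univ.erase s, ket l (p, t)) *
      ∏ q : Fin 3, ∏ t ∈ Finset.univ.erase s, bra l (q, t) := by
  unfold GM pl cj FF ket bra
  simp only [Pi.zero_apply, Function.iterate_zero, id_eq, map_prod, map_sum, map_mul, map_C,
    map_X, rename_C, rename_X]

theorem prod_split {R : Type*} [CommMonoid R] (f : Fin 3 × Fin m → R) (s : Fin m) :
    ∏ x, f x = (∏ p : Fin 3, f (p, s)) * ∏ p : Fin 3, ∏ t ∈ Finset.univ.erase s, f (p, t) := by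
  rw [Fintype.prod_prod_type, ← Finset.prod_mul_distrib]
  refine Finset.prod_congr rfl fun p _ => ?_
  exact (Finset.mul_prod_erase Finset.univ (fun t => f (p, t)) (Finset.mem_univ s)).symm

theorem prod_three {R : Type*} [CommMonoid R] (h : Fin 3 → R) (p : Fin 3) :
    (∏ p' : Fin 3, if p' = p then 1 else h p') = h (p + 1) * h (p + 2) := by
  fin_cases p
  · simp [Fin.prod_univ_three]
  · rw [Fin.prod_univ_three]
    have h1 : ((1 : Fin 3) + 1) = 2 := rfl
    have h2 : ((1 : Fin 3) + 2) = 0 := rfl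
    simp [h1, h2, mul_comm]
  · rw [Fin.prod_univ_three]
    have h1 : ((2 : Fin 3) + 1) = 0 := rfl
    have h2 : ((2 : Fin 3) + 2) = 1 := rfl
    simp [h1, h2]

theorem prod_full (l : Fin m → ι → ℂ) (e : ι → ℂ) (b : ℝ) (s : Fin m)
    (hle : ∀ a, l s a = (b : ℂ) * e a) :
    (∏ x, ket l x) * ∏ y, bra l y =
      C ((b : ℂ) ^ 6) * (xi e 0 * xi e 1 * xi e 2 * (eta e 0 * eta e 1 * eta e 2) *
        GM e (FF l s) 0 0) := by
  rw [prod_split (ket l) s, prod_split (bra l) s, GM_eq, Fin.prod_univ_three (fun p => ket l (p, s)),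
    Fin.prod_univ_three (fun p => bra l (p, s))]
  simp only [ket_scale l e b s hle, bra_scale l e b s hle, map_pow]
  ring

theorem prod_erase (l : Fin m → ι → ℂ) (e : ι → ℂ) (b : ℝ) (s : Fin m)
    (hle : ∀ a, l s a = (b : ℂ) * e a) (p : Fin 3) :
    (∏ x, if x = (p, s) then 1 else ket l x) * ∏ y, bra l y =
      C ((b : ℂ) ^ 5) * (xi e (p + 1) * xi e (p + 2) * (eta e 0 * eta e 1 * eta e 2) *
        GM e (FF l s) 0 0) := by
  rw [prod_split (fun x => if x = (p, s) then 1 else ket l x) s, prod_split (bra l) s, GM_eq,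
    Fin.prod_univ_three (fun p => bra l (p, s))]
  have h1 : (∏ p' : Fin 3, if ((p', s) : Fin 3 × Fin m) = (p, s) then 1 else ket l (p', s)) =
      ket l (p + 1, s) * ket l (p + 2, s) := by
    rw [← prod_three (fun p' => ket l (p', s)) p]
    refine Finset.prod_congr rfl fun p' _ => ?_
    simp only [Prod.mk.injEq, and_true]
  have h2 : (∏ p' : Fin 3, ∏ t ∈ Finset.univ.erase s,
      if ((p', t) : Fin 3 × Fin m) = (p, s) then 1 else ket l (p', t)) =
      ∏ p' : Fin 3, ∏ t ∈ Finset.univ.erase s, ket l (p', t) := by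
    refine Finset.prod_congr rfl fun p' _ => Finset.prod_congr rfl fun t ht => ?_
    rw [if_neg]
    intro h
    exact Finset.ne_of_mem_erase ht (Prod.mk.inj h).2
  rw [h1, h2]
  simp only [ket_scale l e b s hle, bra_scale l e b s hle, map_pow]
  ring

theorem L_C {V : Type} (L : MvPolynomial V ℂ →ₗ[ℂ] ℂ) (b : ℝ) (Q : MvPolynomial V ℂ) :
    (L (C (b : ℂ) * Q)).re = b * (L Q).re := by
  rw [← smul_eq_C_mul, map_smul, smul_eq_mul, Complex.re_ofReal_mul]

end

/-- a vector is a positive multiple of a unit vector -/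
theorem exists_unit {ι : Type} [Fintype ι] (u : ι → ℂ) (hu : ∃ a, u a ≠ 0) :
    ∃ (b : ℝ) (e : ι → ℂ), (∀ a, u a = (b : ℂ) * e a) ∧ ∑ a, e a * conj (e a) = 1 := by
  have hpos : 0 < ∑ a, ‖u a‖ ^ 2 := by
    obtain ⟨a, ha⟩ := hu
    refine Finset.sum_pos' (fun i _ => by positivity) ⟨a, Finset.mem_univ _, ?_⟩
    have := norm_pos_iff.mpr ha
    positivity
  set b := Real.sqrt (∑ a, ‖u a‖ ^ 2) with hb
  have hb0 : 0 < b := Real.sqrt_pos.mpr hpos
  have hb0' : (b : ℂ) ≠ 0 := by exact_mod_cast hb0.ne'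
  have hb2 : b ^ 2 = ∑ a, ‖u a‖ ^ 2 := Real.sq_sqrt hpos.le
  refine ⟨b, fun a => u a / b, fun a => ?_, ?_⟩
  · field_simp
  · have h1 : ∀ a, u a / b * conj (u a / b) = ((‖u a‖ ^ 2 : ℝ) : ℂ) / (b : ℂ) ^ 2 := by
      intro a
      rw [map_div₀, Complex.conj_ofReal, div_mul_div_comm, Complex.mul_conj, Complex.normSq_eq_norm_sq]
      ring
    simp only [h1]
    rw [← Finset.sum_div, ← Complex.ofReal_sum, ← hb2, Complex.ofReal_pow, div_self (pow_ne_zero 2 hb0')]

/-- **pt:LG2** -/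
theorem rowLG2 : RowLG2 := by
  intro hEX hWK c v hLEG m B hB s
  obtain ⟨l, hl⟩ := Pool.Agent.helper80.LSZ.exists_fac B hB m (by
    have := B.rank_le_card_width
    simpa using this)
  by_cases h0 : ∃ a, l s a ≠ 0
  · obtain ⟨b, e, hle, he⟩ := exists_unit (l s) h0
    obtain ⟨L', hL'⟩ := hEX ((Sl × Fin m) ⊕ (Fin 3 × Fin m)) (KX c v) (KX_symm c v)
    have hL := L0_isG c v L' hL'
    have hk := hLEG (Fin m) (L0 L') hL e (FF l s) he
    have h1 : (KB c B).permanent.re = b ^ 6 * (L0 L' (xi e 0 * xi e 1 * xi e 2 *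
        (eta e 0 * eta e 1 * eta e 2) * GM e (FF l s) 0 0)).re := by
      rw [per_KB hWK c (L0 L') hL B l hl, prod_full l e b s hle, ← Complex.ofReal_pow, L_C]
    have h2 : ∀ p : Fin 3, ((KB c B).updateRow (p, s)
        (fun y => (v (y.1 - p) : ℂ) * B s y.2)).permanent.re =
        b ^ 6 * ∑ q : Fin 3, v (q - p) * (L0 L' (DD e q (xi e (p + 1) * xi e (p + 2) *
          (eta e 0 * eta e 1 * eta e 2) * GM e (FF l s) 0 0))).re := by
      intro p
      rw [per_row hWK c v L' hL' B l hl (p, s), Complex.re_sum, Finset.mul_sum]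
      refine Finset.sum_congr rfl fun q _ => ?_
      rw [Complex.re_ofReal_mul, prod_erase l e b s hle p, DD_scale (l s) e b hle, DD_C,
        ← Complex.ofReal_pow, L_C, L_C]
      ring
    rw [h1, Finset.sum_congr rfl fun p _ => h2 p, ← Finset.mul_sum]
    have hb6 : 0 ≤ b ^ 6 := by positivity
    calc dperc c v * (b ^ 6 * (L0 L' (xi e 0 * xi e 1 * xi e 2 *
        (eta e 0 * eta e 1 * eta e 2) * GM e (FF l s) 0 0)).re)
        = b ^ 6 * (dperc c v * (L0 L' (xi e 0 * xi e 1 * xi e 2 *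
        (eta e 0 * eta e 1 * eta e 2) * GM e (FF l s) 0 0)).re) := by ring
      _ ≤ b ^ 6 * (perc c * ∑ p : Fin 3, ∑ q : Fin 3, v (q - p) *
          (L0 L' (DD e q (xi e (p + 1) * xi e (p + 2) * (eta e 0 * eta e 1 * eta e 2) *
            GM e (FF l s) 0 0))).re) := mul_le_mul_of_nonneg_left hk hb6
      _ = _ := by ring
  · push Not at h0
    have hz : ∀ t, B s t = 0 := by
      intro t
      rw [hl]
      exact Finset.sum_eq_zero fun a _ => by rw [h0 a, zero_mul]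
    have h1 : (KB c B).permanent = 0 :=
      per_zero_row _ ((0, s) : Fin 3 × Fin m) fun y => by simp [KB, hz]
    have h2 : ∀ p : Fin 3, ((KB c B).updateRow (p, s)
        (fun y => (v (y.1 - p) : ℂ) * B s y.2)).permanent = 0 := fun p =>
      per_zero_row _ ((p, s) : Fin 3 × Fin m) fun y => by
        rw [Matrix.updateRow_self, hz, mul_zero]
    rw [h1, Finset.sum_congr rfl fun p _ => congrArg Complex.re (h2 p)]
    simp

end Pool.Agent.helper37.PT
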